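import Mathlib

/-!
# A numerical inequality
-/

set_option autoImplicit false

open Real Finset

namespace Pool.Agent.H37.UG

noncomputable def kk (n : ℕ) : ℕ := ⌈(n : ℝ) * (15 + 5 / 2 * Real.log n)⌉₊

theorem log_tangent (a c : ℝ) (ha : 0 < a) (hc : 0 < c) : Real.log a ≤ Real.log c + (a / c - 1) := by
  have h1 := Real.log_le_sub_one_of_pos (div_pos ha hc)
  rw [Real.log_div ha.ne' hc.ne'] at h1
  linarith

theorem log_pow2 : Real.log 8 ≤ 2.0795 ∧ Real.log 16 ≤ 2.7726 ∧ Real.log 32 ≤ 3.4658 := by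
  have h := Real.log_two_lt_d9
  have h8 : Real.log 8 = 3 * Real.log 2 := by
    rw [show (8 : ℝ) = 2 ^ (3 : ℕ) by norm_num, Real.log_pow]; norm_num
  have h16 : Real.log 16 = 4 * Real.log 2 := by
    rw [show (16 : ℝ) = 2 ^ (4 : ℕ) by norm_num, Real.log_pow]; norm_num
  have h32 : Real.log 32 = 5 * Real.log 2 := by
    rw [show (32 : ℝ) = 2 ^ (5 : ℕ) by norm_num, Real.log_pow]; norm_num
  rw [h8, h16, h32]
  refine ⟨?_, ?_, ?_⟩ <;> norm_num <;> linarith

/-- the inequality between the exponents -/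
theorem expo (n : ℕ) (hn : 2 ≤ n) (x lam w : ℝ) (hx : x = Real.log n)
    (hlam : lam ≤ Real.log (31 / 2 + 5 / 2 * x)) (hw : w ≤ Real.log (2 + x + Real.log (31 / 2 + 5 / 2 * x))) :
    (3.7727 : ℝ) + 1.5 * x + lam + ((n : ℝ) - 1) * (lam + w) + n * (3.8977 + lam + 2 * x) ≤
      n * (13.294 + 2.2157 * x) := by
  obtain ⟨h8, h16, h32⟩ := log_pow2
  have hn2 : (2 : ℝ) ≤ n := by exact_mod_cast hn
  have hn0 : (0 : ℝ) < n := by linarith
  have hx0 : 0 ≤ x := by rw [hx]; exact Real.log_nonneg (by linarith)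
  have hp : (0 : ℝ) < 31 / 2 + 5 / 2 * x := by linarith
  have hlp : 0 ≤ Real.log (31 / 2 + 5 / 2 * x) := Real.log_nonneg (by linarith)
  have hq : (0 : ℝ) < 2 + x + Real.log (31 / 2 + 5 / 2 * x) := by linarith
  by_cases hc : n ≤ 8
  · have hc' : (n : ℝ) ≤ 8 := by exact_mod_cast hc
    have hx8 : x ≤ 2.0795 := by
      rw [hx]
      exact (Real.log_le_log hn0 hc').trans h8
    have h1 : Real.log (31 / 2 + 5 / 2 * x) ≤ 2.7414 + 0.15625 * x := by
      have := log_tangent _ 16 hp (by norm_num)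
      norm_num at this ⊢
      linarith
    have h2 : Real.log (2 + x + Real.log (31 / 2 + 5 / 2 * x)) ≤ 1.6722 + 0.14454 * x := by
      have := log_tangent _ 8 hq (by norm_num)
      norm_num at this h1 ⊢
      linarith
    have hxn : x ≤ 0.6932 + (n / 2 - 1) := by
      have := log_tangent (n : ℝ) 2 hn0 (by norm_num)
      have h := Real.log_two_lt_d9
      rw [hx]
      norm_num at this h ⊢
      linarith
    have e1 : lam ≤ 2.7414 + 0.15625 * x := hlam.trans h1
    have e2 : w ≤ 1.6722 + 0.14454 * x := hw.trans h2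
    have p1 : 0 ≤ (2.7414 + 0.15625 * x - lam) * n := mul_nonneg (by linarith) hn0.le
    have p2 : 0 ≤ (1.6722 + 0.14454 * x - w) * ((n : ℝ) - 1) := mul_nonneg (by linarith) (by linarith)
    have p3 : 0 ≤ (2.0795 - x) * n := mul_nonneg (by linarith) hn0.le
    norm_num at p1 p2 p3 hxn ⊢
    nlinarith
  · have hc' : (8 : ℝ) ≤ n := by
      have : 8 ≤ n := by omega
      exact_mod_cast this
    have h1 : Real.log (31 / 2 + 5 / 2 * x) ≤ 2.9502 + 0.078125 * x := by
      have := log_tangent _ 32 hp (by norm_num)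
      norm_num at this ⊢
      linarith
    have h2 : Real.log (2 + x + Real.log (31 / 2 + 5 / 2 * x)) ≤ 2.6206 + 0.0337 * x := by
      have := log_tangent _ 32 hq (by norm_num)
      norm_num at this h1 ⊢
      linarith
    have hxn : x ≤ 2.0795 + (n / 8 - 1) := by
      have := log_tangent (n : ℝ) 8 hn0 (by norm_num)
      rw [hx]
      norm_num at this ⊢
      linarith
    have e1 : lam ≤ 2.9502 + 0.078125 * x := hlam.trans h1
    have e2 : w ≤ 2.6206 + 0.0337 * x := hw.trans h2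
    have p1 : 0 ≤ (2.9502 + 0.078125 * x - lam) * n := mul_nonneg (by linarith) hn0.le
    have p2 : 0 ≤ (2.6206 + 0.0337 * x - w) * ((n : ℝ) - 1) := mul_nonneg (by linarith) (by linarith)
    have p3 : 0 ≤ x * n := mul_nonneg hx0 hn0.le
    norm_num at p1 p2 p3 hxn ⊢
    nlinarith

theorem kk_ge (n : ℕ) : (n : ℝ) * (15 + 5 / 2 * Real.log n) ≤ kk n := Nat.le_ceil _

theorem kk_le (n : ℕ) (hn : 2 ≤ n) : (kk n : ℝ) ≤ n * (31 / 2 + 5 / 2 * Real.log n) := by
  have hn2 : (2 : ℝ) ≤ n := by exact_mod_cast hn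
  have hx0 : 0 ≤ Real.log n := Real.log_nonneg (by linarith)
  have h := Nat.ceil_lt_add_one (a := (n : ℝ) * (15 + 5 / 2 * Real.log n)) (by positivity)
  unfold kk
  linarith

/-- `H_k ≤ 1 + log k` -/
theorem harm_le (k : ℕ) (hk : 1 ≤ k) : ∑ j ∈ range k, (1 : ℝ) / (j + 1) ≤ 1 + Real.log k := by
  have h := harmonic_le_one_add_log k
  have e : ((harmonic k : ℚ) : ℝ) = ∑ j ∈ range k, (1 : ℝ) / (j + 1) := by
    unfold harmonic
    push_cast
    exact Finset.sum_congr rfl fun j _ => by rw [one_div]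
  rw [e] at h
  exact h

theorem num_ii (n : ℕ) (hn : 2 ≤ n) : ∃ z : ℝ, 0 < z ∧ z ≤ 1 ∧
    2 * (exp 1 * √((kk n * n - 1 : ℕ) : ℝ)) * exp ((kk n : ℝ) / 2) * (2 * √(kk n : ℝ) / 4 ^ (kk n)) *
      ((z⁻¹) ^ (n - 1) * exp (z * ∑ j ∈ range (kk n), (1 + (kk n : ℝ) / (j + 1)))) ≤
      1 / 4 * (1 / (18 * kk n * n : ℝ)) ^ n := by
  have hn2 : (2 : ℝ) ≤ n := by exact_mod_cast hn
  have hn0 : (0 : ℝ) < n := by linarith
  set k := kk n with hk
  set x := Real.log n with hx
  have hx0 : 0 ≤ x := Real.log_nonneg (by linarith)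
  have hkge : (n : ℝ) * (15 + 5 / 2 * x) ≤ k := kk_ge n
  have hkle : (k : ℝ) ≤ n * (31 / 2 + 5 / 2 * x) := kk_le n hn
  have hk30 : (30 : ℝ) ≤ k := by nlinarith
  have hk0 : (0 : ℝ) < k := by linarith
  have hk1 : 1 ≤ k := by
    have : (1 : ℝ) ≤ k := by linarith
    exact_mod_cast this
  set y := Real.log k with hy
  have hy0 : 0 ≤ y := Real.log_nonneg (by linarith)
  set S := ∑ j ∈ range k, (1 + (k : ℝ) / (j + 1)) with hS
  have hS1 : S = k + k * ∑ j ∈ range k, (1 : ℝ) / (j + 1) := by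
    rw [hS, Finset.sum_add_distrib, Finset.mul_sum]
    simp only [Finset.sum_const, Finset.card_range, nsmul_eq_mul, mul_one]
    congr 1
    exact Finset.sum_congr rfl fun j _ => by ring
  have hH0 : 0 ≤ ∑ j ∈ range k, (1 : ℝ) / (j + 1) := Finset.sum_nonneg fun j _ => by positivity
  have hSk : (k : ℝ) ≤ S := by
    rw [hS1]
    nlinarith
  have hS0 : 0 < S := by linarith
  have hSle : S ≤ k * (2 + y) := by
    rw [hS1]
    have := harm_le k hk1
    nlinarith
  have hnk : (n : ℝ) ≤ k := by nlinarith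
  refine ⟨n / S, by positivity, (div_le_one hS0).2 (hnk.trans hSk), ?_⟩
  have hz : (n : ℝ) / S * S = n := div_mul_cancel₀ _ hS0.ne'
  rw [hz, inv_div]
  -- exponentials
  set w := Real.log (2 + y) with hw
  have hw0 : 0 < 2 + y := by linarith
  have ek : exp y = k := Real.exp_log hk0
  have en : exp x = n := Real.exp_log hn0
  have ew : exp w = 2 + y := Real.exp_log hw0
  have b1 : √((k * n - 1 : ℕ) : ℝ) ≤ exp ((x + y) / 2) := by
    rw [Real.sqrt_le_left (exp_pos _).le]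
    have h1 : ((k * n - 1 : ℕ) : ℝ) ≤ k * n := by
      have : ((k * n - 1 : ℕ) : ℝ) ≤ ((k * n : ℕ) : ℝ) := by exact_mod_cast Nat.sub_le _ _
      push_cast at this
      exact this
    have h2 : exp ((x + y) / 2) ^ 2 = k * n := by
      rw [← Real.exp_nat_mul, show ((2 : ℕ) : ℝ) * ((x + y) / 2) = y + x by push_cast; ring, Real.exp_add, ek, en]
    rw [h2]
    exact h1
  have b2 : √(k : ℝ) ≤ exp (y / 2) := by
    rw [Real.sqrt_le_left (exp_pos _).le]
    have h2 : exp (y / 2) ^ 2 = k := by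
      rw [← Real.exp_nat_mul, show ((2 : ℕ) : ℝ) * (y / 2) = y by push_cast; ring, ek]
    rw [h2]
  have b3 : (4 : ℝ) ^ k = exp (k * Real.log 4) := by
    rw [Real.exp_nat_mul, Real.exp_log (by norm_num)]
  have b4 : (S / n) ^ (n - 1) ≤ exp (((n : ℝ) - 1) * (y - x + w)) := by
    have h1 : S / n ≤ exp (y - x + w) := by
      rw [Real.exp_add, Real.exp_sub, ek, en, ew, div_mul_eq_mul_div]
      gcongr
    have h2 : (((n - 1 : ℕ) : ℝ)) = n - 1 := by
      rw [Nat.cast_sub (by omega)]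
      simp
    rw [← h2, Real.exp_nat_mul]
    gcongr
  have b5 : 1 / 4 * (1 / (18 * k * n : ℝ)) ^ n = exp (-Real.log 4 - n * (Real.log 18 + y + x)) := by
    rw [Real.exp_sub, Real.exp_neg, Real.exp_log (by norm_num), Real.exp_nat_mul, Real.exp_add, Real.exp_add,
      Real.exp_log (by norm_num), ek, en, div_pow, one_pow]
    ring
  rw [b5, b3]
  have hlhs : 2 * (exp 1 * √((k * n - 1 : ℕ) : ℝ)) * exp ((k : ℝ) / 2) *
      (2 * √(k : ℝ) / exp (k * Real.log 4)) * ((S / n) ^ (n - 1) * exp (n : ℝ)) ≤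
      2 * (exp 1 * exp ((x + y) / 2)) * exp ((k : ℝ) / 2) *
      (2 * exp (y / 2) / exp (k * Real.log 4)) * (exp (((n : ℝ) - 1) * (y - x + w)) * exp (n : ℝ)) := by
    gcongr
  refine hlhs.trans ?_
  have e2 : (2 : ℝ) = exp (Real.log 2) := (Real.exp_log (by norm_num)).symm
  have hrew : 2 * (exp 1 * exp ((x + y) / 2)) * exp ((k : ℝ) / 2) *
      (2 * exp (y / 2) / exp (k * Real.log 4)) * (exp (((n : ℝ) - 1) * (y - x + w)) * exp (n : ℝ)) =
      exp (Real.log 2 + 1 + (x + y) / 2 + k / 2 + (Real.log 2 + y / 2 - k * Real.log 4) +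
        (((n : ℝ) - 1) * (y - x + w) + n)) := by
    rw [Real.exp_add (Real.log 2 + 1 + (x + y) / 2 + k / 2 + (Real.log 2 + y / 2 - k * Real.log 4)),
      Real.exp_add (Real.log 2 + 1 + (x + y) / 2 + k / 2), Real.exp_add (Real.log 2 + 1 + (x + y) / 2),
      Real.exp_add (Real.log 2 + 1), Real.exp_add (Real.log 2), Real.exp_sub, Real.exp_add (Real.log 2),
      Real.exp_add (((n : ℝ) - 1) * (y - x + w)), ← e2]
    ring
  rw [hrew, Real.exp_le_exp]
  -- the exponents
  have hl2 := Real.log_two_gt_d9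
  have hl2' := Real.log_two_lt_d9
  have hl4 : Real.log 4 = 2 * Real.log 2 := by
    rw [show (4 : ℝ) = 2 ^ (2 : ℕ) by norm_num, Real.log_pow]; norm_num
  have hl18 : Real.log 18 ≤ 2.8977 := by
    have h1 := log_tangent 18 16 (by norm_num) (by norm_num)
    have h16 : Real.log 16 = 4 * Real.log 2 := by
      rw [show (16 : ℝ) = 2 ^ (4 : ℕ) by norm_num, Real.log_pow]; norm_num
    rw [h16] at h1
    norm_num at h1 hl2' ⊢
    linarith
  have hyx : y - x ≤ Real.log (31 / 2 + 5 / 2 * x) := by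
    rw [hy, hx, ← Real.log_div hk0.ne' hn0.ne']
    apply Real.log_le_log (by positivity)
    rw [div_le_iff₀ hn0]
    linarith
  have hex := expo n hn x (y - x) w hx hyx (by
    rw [hw]
    apply Real.log_le_log hw0
    linarith)
  have hk2 : (n : ℝ) * (13.294 + 2.2157 * x) ≤ k * (Real.log 4 - 1 / 2) := by
    have h3 : (0.88629 : ℝ) ≤ Real.log 4 - 1 / 2 := by
      rw [hl4]
      norm_num at hl2 ⊢
      linarith
    have h4 : (n : ℝ) * (15 + 5 / 2 * x) * (Real.log 4 - 1 / 2) ≤ k * (Real.log 4 - 1 / 2) := by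
      apply mul_le_mul_of_nonneg_right hkge
      linarith
    have h5 : (n : ℝ) * (15 + 5 / 2 * x) * 0.88629 ≤ (n : ℝ) * (15 + 5 / 2 * x) * (Real.log 4 - 1 / 2) := by
      apply mul_le_mul_of_nonneg_left h3
      positivity
    have h6 : (n : ℝ) * (13.294 + 2.2157 * x) ≤ (n : ℝ) * (15 + 5 / 2 * x) * 0.88629 := by
      have : (0 : ℝ) ≤ n * x := by positivity
      norm_num at this ⊢
      nlinarith
    linarith
  have hn18 : (n : ℝ) * Real.log 18 ≤ n * 2.8977 := mul_le_mul_of_nonneg_left hl18 hn0.le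
  rw [hl4] at hk2 ⊢
  norm_num at hex hk2 hl2' hn18 ⊢
  nlinarith

end Pool.Agent.H37.UG
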