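import Pool.Agent.H37.UG.Interp

/-!
# Interpolation of monomials of curves by forms in two variables
-/

set_option autoImplicit false

namespace Pool.Agent.H37.UG

open MvPolynomial

section der

variable {K R : Type*} [CommRing K] [CommRing R] [Algebra K R]

/-- A derivation acting on the coefficients of power series. -/
noncomputable def mapDer (V : Derivation K R R) : Derivation K (PowerSeries R) (PowerSeries R) :=
  Derivation.mk' (A := PowerSeries R)
    { toFun := fun a => PowerSeries.mk fun s => V (PowerSeries.coeff s a)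
      map_add' := fun a b => by
        ext s
        simp
      map_smul' := fun c a => by
        ext s
        simp } fun a b => by
    ext s
    simp only [LinearMap.coe_mk, AddHom.coe_mk, smul_eq_mul, PowerSeries.coeff_mk, map_add]
    rw [mul_comm b, PowerSeries.coeff_mul, PowerSeries.coeff_mul, PowerSeries.coeff_mul, map_sum,
      ← Finset.sum_add_distrib]
    refine Finset.sum_congr rfl fun x _ => ?_
    rw [PowerSeries.coeff_mk, PowerSeries.coeff_mk, Derivation.leibniz, smul_eq_mul, smul_eq_mul]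
    ring

theorem coeff_mapDer (V : Derivation K R R) (a : PowerSeries R) (s : ℕ) :
    PowerSeries.coeff s (mapDer V a) = V (PowerSeries.coeff s a) := by
  change PowerSeries.coeff s (PowerSeries.mk fun s => V (PowerSeries.coeff s a)) = _
  rw [PowerSeries.coeff_mk]

theorem mapDer_C (V : Derivation K R R) (a : R) : mapDer V (PowerSeries.C a) = PowerSeries.C (V a) := by
  ext s
  rw [coeff_mapDer, PowerSeries.coeff_C, PowerSeries.coeff_C]
  split_ifs <;> simp

/-- Leibniz rule for monomials. -/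
theorem der_prod_pow {S ι : Type*} [CommRing S] [Algebra K S] [Fintype ι] [DecidableEq ι]
    (V : Derivation K S S) (x : ι → S) (α : ι → ℕ) :
    V (∏ j, x j ^ α j) = ∑ i, ((α i : S) * (x i ^ (α i - 1) * ∏ j ∈ Finset.univ.erase i, x j ^ α j)) * V (x i) := by
  classical
  have key : ∀ s : Finset ι, V (∏ j ∈ s, x j ^ α j) =
      ∑ i ∈ s, ((α i : S) * (x i ^ (α i - 1) * ∏ j ∈ s.erase i, x j ^ α j)) * V (x i) := by
    intro s
    induction s using Finset.induction_on with
    | empty => simp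
    | insert a s ha ih =>
      rw [Finset.prod_insert ha, Derivation.leibniz, ih, Finset.sum_insert ha, Finset.erase_insert ha,
        Derivation.leibniz_pow, add_comm, smul_eq_mul (x a ^ α a), Finset.mul_sum]
      congr 1
      · rw [nsmul_eq_mul, smul_eq_mul, smul_eq_mul]
        ring
      · refine Finset.sum_congr rfl fun i hi => ?_
        have hne : a ≠ i := fun h => ha (h ▸ hi)
        rw [Finset.erase_insert_of_ne hne, Finset.prod_insert (fun h => ha (Finset.mem_of_mem_erase h))]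
        ring
  exact key Finset.univ

end der

section coefs

variable {R : Type*} [CommRing R] {B : ℕ → AddSubgroup R} (h : IsFilt B) {ι : Type*}

/-- All coefficients are in `B e`. -/
def GoodP (B : ℕ → AddSubgroup R) (e : ℕ) (H : MvPolynomial ι R) : Prop := ∀ μ, coeff μ H ∈ B e

theorem GoodP.zero (e : ℕ) : GoodP B e (0 : MvPolynomial ι R) := fun μ => by
  rw [coeff_zero]; exact (B e).zero_mem

theorem GoodP.add {e : ℕ} {G H : MvPolynomial ι R} (hG : GoodP B e G) (hH : GoodP B e H) : GoodP B e (G + H) :=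
  fun μ => by rw [coeff_add]; exact (B e).add_mem (hG μ) (hH μ)

theorem GoodP.neg {e : ℕ} {G : MvPolynomial ι R} (hG : GoodP B e G) : GoodP B e (-G) :=
  fun μ => by rw [coeff_neg]; exact (B e).neg_mem (hG μ)

theorem GoodP.sub {e : ℕ} {G H : MvPolynomial ι R} (hG : GoodP B e G) (hH : GoodP B e H) : GoodP B e (G - H) :=
  fun μ => by rw [coeff_sub]; exact (B e).sub_mem (hG μ) (hH μ)

theorem GoodP.sum {e : ℕ} {κ : Type*} (s : Finset κ) (G : κ → MvPolynomial ι R) (hG : ∀ i ∈ s, GoodP B e (G i)) :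
    GoodP B e (∑ i ∈ s, G i) := fun μ => by
  rw [coeff_sum]
  exact AddSubgroup.sum_mem _ fun i hi => hG i hi μ

theorem GoodP.monomial {e : ℕ} {a : R} (ha : a ∈ B e) (μ : ι →₀ ℕ) : GoodP B e (monomial μ a) := by
  classical
  intro ν
  rw [coeff_monomial]
  split_ifs
  · exact ha
  · exact (B e).zero_mem

theorem GoodP.C {e : ℕ} {a : R} (ha : a ∈ B e) : GoodP B e (C a : MvPolynomial ι R) := GoodP.monomial ha 0

include h

theorem GoodP.mono {e e' : ℕ} (hee : e ≤ e') {G : MvPolynomial ι R} (hG : GoodP B e G) : GoodP B e' G :=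
  fun μ => h.mono hee (hG μ)

theorem GoodP.mul {e e' : ℕ} {G H : MvPolynomial ι R} (hG : GoodP B e G) (hH : GoodP B e' H) :
    GoodP B (e + e') (G * H) := by
  classical
  intro μ
  rw [coeff_mul]
  exact AddSubgroup.sum_mem _ fun x _ => h.mul (hG _) (hH _)

theorem GoodP.X (i : ι) : GoodP B 0 (X i : MvPolynomial ι R) := GoodP.monomial h.one _

theorem GoodP.one : GoodP B 0 (1 : MvPolynomial ι R) := by
  have := GoodP.C (ι := ι) h.one
  rwa [C_1] at this

theorem GoodP.pow {e : ℕ} {G : MvPolynomial ι R} (hG : GoodP B e G) (r : ℕ) : GoodP B (r * e) (G ^ r) := by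
  induction r with
  | zero => simpa using GoodP.one (ι := ι) h
  | succ r ih =>
    rw [pow_succ, Nat.succ_mul]
    exact GoodP.mul h ih hG

end coefs

section form

variable {R : Type*} [CommRing R] {B : ℕ → AddSubgroup R} (h : IsFilt B) {n : ℕ}

include h

theorem good_prod_pow {ι : Type*} (s : Finset ι) {x : ι → PowerSeries R} (hx : ∀ j ∈ s, IsFilt.Good B 1 1 (x j))
    (α : ι → ℕ) : IsFilt.Good B 1 (∑ j ∈ s, α j) (∏ j ∈ s, x j ^ α j) := by
  classical
  induction s using Finset.induction_on with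
  | empty => simpa using h.good_one 1 0
  | insert a s ha ih =>
    rw [Finset.prod_insert ha, Finset.sum_insert ha]
    refine h.good_mul ?_ (ih fun j hj => hx j (Finset.mem_insert_of_mem hj))
    have := h.good_pow (hx a (Finset.mem_insert_self a s)) (α a)
    rwa [mul_one] at this

/-- The monomial `t^s₀ x(t)^γ` of degree `k`, times `y^(2k)`, is modulo `t^(k+1)` the value of a form of degree
`k` with coefficients of weight `≤ 5k`. -/
theorem interp_form [IsDomain R] {x : Fin (n + 2) → PowerSeries R} (hx0 : x 0 = 1)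
    (hx : ∀ j, IsFilt.Good B 1 1 (x j)) (l : Fin (n + 2)) (hy : PowerSeries.coeff 1 (x l) ≠ 0) (k s₀ : ℕ)
    (γ : Fin (n + 2) → ℕ) (hγ : ∑ j, γ j = k) : ∃ H : MvPolynomial (Fin (n + 2)) R, H.IsHomogeneous k ∧
      GoodP B (5 * k) H ∧ ∀ s ≤ k, PowerSeries.coeff s (eval₂ PowerSeries.C x H) =
        PowerSeries.coeff s (PowerSeries.C (PowerSeries.coeff 1 (x l) ^ (2 * k)) *
          (PowerSeries.X ^ s₀ * ∏ j, x j ^ γ j)) := by
  classical
  set a := PowerSeries.coeff 0 (x l) with ha
  have haB : a ∈ B 1 := hx l 0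
  have hz1 : PowerSeries.coeff 1 (x l - PowerSeries.C a) = PowerSeries.coeff 1 (x l) := by
    rw [map_sub, PowerSeries.coeff_C]
    simp
  have hz0 : PowerSeries.coeff 0 (x l - PowerSeries.C a) = 0 := by
    rw [map_sub, PowerSeries.coeff_zero_C, ← ha, sub_self]
  have hz : IsFilt.Good B 1 1 (x l - PowerSeries.C a) := by
    intro s
    rw [map_sub, PowerSeries.coeff_C]
    refine (B _).sub_mem (hx l s) ?_
    split_ifs
    · exact h.mono (by omega) haB
    · exact (B _).zero_mem
  have hu : IsFilt.Good B 1 k (PowerSeries.X ^ s₀ * ∏ j, x j ^ γ j) := by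
    intro s
    rw [PowerSeries.coeff_X_pow_mul']
    have h1 := good_prod_pow h Finset.univ (fun j _ => hx j) γ
    rw [hγ] at h1
    split_ifs
    · exact h.mono (by omega) (h1 (s - s₀))
    · exact (B _).zero_mem
  obtain ⟨c, hc, hcs⟩ := h.interp hz0 hz (by rwa [hz1]) hu k
  rw [hz1] at hcs
  refine ⟨∑ r ∈ Finset.range (k + 1), C (c r) * (X 0 ^ (k - r) * (X l - C a * X 0) ^ r), ?_, ?_, ?_⟩
  · refine IsHomogeneous.sum _ _ _ fun r hr => ?_
    have hr' : r ≤ k := Nat.lt_succ_iff.1 (Finset.mem_range.1 hr)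
    have h1 : (X l - C a * X 0 : MvPolynomial (Fin (n + 2)) R).IsHomogeneous 1 :=
      (isHomogeneous_X _ _).sub (by simpa using (isHomogeneous_C (Fin (n + 2)) a).mul (isHomogeneous_X R 0))
    have h2 := (isHomogeneous_C (Fin (n + 2)) (c r)).mul
      ((isHomogeneous_X_pow (R := R) (0 : Fin (n + 2)) (k - r)).mul (h1.pow r))
    have e : 0 + (k - r + 1 * r) = k := by omega
    rwa [e] at h2
  · refine GoodP.sum _ _ fun r hr => ?_
    have hr' : r ≤ k := Nat.lt_succ_iff.1 (Finset.mem_range.1 hr)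
    have h1 : GoodP B 1 (X l - C a * X 0 : MvPolynomial (Fin (n + 2)) R) :=
      (GoodP.mono h (Nat.zero_le 1) (GoodP.X h l)).sub (by simpa using GoodP.mul h (GoodP.C haB) (GoodP.X h 0))
    have h2 := GoodP.mul h (GoodP.C (ι := Fin (n + 2)) (hc r hr'))
      (GoodP.mul h (GoodP.pow h (GoodP.X h (0 : Fin (n + 2))) (k - r)) (GoodP.pow h h1 r))
    have e : 4 * k - r + k + ((k - r) * 0 + r * 1) = 5 * k := by omega
    rwa [e] at h2
  · intro s hs
    have h3 := hcs s hs
    rw [map_sub, sub_eq_zero] at h3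
    rw [h3, eval₂_sum]
    congr 1
    refine Finset.sum_congr rfl fun r _ => ?_
    rw [eval₂_mul, eval₂_C, eval₂_mul, eval₂_pow, eval₂_pow, eval₂_X, hx0, one_pow, one_mul, eval₂_sub,
      eval₂_mul, eval₂_X, eval₂_X, eval₂_C, hx0, mul_one]

omit h in
/-- Below any exponent of degree at least `k` there is one of degree `k`. -/
theorem exists_sub {ι : Type*} [Fintype ι] [DecidableEq ι] (ν : ι → ℕ) (k : ℕ) (h : k ≤ ∑ i, ν i) :
    ∃ γ : ι → ℕ, (∀ i, γ i ≤ ν i) ∧ ∑ i, γ i = k := by
  induction k with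
  | zero => exact ⟨fun _ => 0, fun _ => Nat.zero_le _, by simp⟩
  | succ k ih =>
    obtain ⟨γ, h1, h2⟩ := ih (by omega)
    obtain ⟨i, hi⟩ : ∃ i, γ i < ν i := by
      by_contra hcon
      push Not at hcon
      have := Finset.sum_le_sum fun i (_ : i ∈ Finset.univ) => hcon i
      omega
    refine ⟨γ + Pi.single i 1, fun j => ?_, ?_⟩
    · rw [Pi.add_apply]
      by_cases hj : j = i
      · subst hj
        rw [Pi.single_eq_same]
        omega
      · rw [Pi.single_eq_of_ne hj, add_zero]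
        exact h1 j
    · simp only [Pi.add_apply]
      rw [Finset.sum_add_distrib, h2, Finset.sum_pi_single']
      simp

omit h in
theorem coeff_mul_congr {A B D : PowerSeries R} {k : ℕ}
    (h : ∀ s ≤ k, PowerSeries.coeff s A = PowerSeries.coeff s B) {s : ℕ} (hs : s ≤ k) :
    PowerSeries.coeff s (D * A) = PowerSeries.coeff s (D * B) := by
  rw [PowerSeries.coeff_mul, PowerSeries.coeff_mul]
  refine Finset.sum_congr rfl fun x hx => ?_
  have h1 : x.1 + x.2 = s := Finset.HasAntidiagonal.mem_antidiagonal.1 hx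
  rw [h x.2 (by omega)]

theorem GoodP.prod_X_pow {ι : Type*} (s : Finset ι) (ν : ι → ℕ) :
    GoodP B 0 (∏ j ∈ s, (MvPolynomial.X j : MvPolynomial ι R) ^ ν j) := by
  classical
  induction s using Finset.induction_on with
  | empty => simpa using GoodP.one (ι := ι) h
  | insert a s ha ih =>
    rw [Finset.prod_insert ha]
    have h5 := GoodP.mul h (GoodP.pow h (GoodP.X (ι := ι) h a) (ν a)) ih
    simpa using h5

/-- `t^s₀ x(t)^ν`, times `y^(2k)`, as the value of a form of degree `|ν| + e`. -/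
theorem exists_form [IsDomain R] {x : Fin (n + 2) → PowerSeries R} (hx0 : x 0 = 1)
    (hx : ∀ j, IsFilt.Good B 1 1 (x j)) (l : Fin (n + 2)) (hy : PowerSeries.coeff 1 (x l) ≠ 0) (k s₀ e : ℕ)
    (ν : Fin (n + 2) → ℕ) (hν : k ≤ ∑ i, ν i) : ∃ H : MvPolynomial (Fin (n + 2)) R,
      H.IsHomogeneous (∑ i, ν i + e) ∧ GoodP B (5 * k) H ∧ ∀ s ≤ k, PowerSeries.coeff s (eval₂ PowerSeries.C x H) =
        PowerSeries.coeff s (PowerSeries.C (PowerSeries.coeff 1 (x l) ^ (2 * k)) *
          (PowerSeries.X ^ s₀ * ∏ j, x j ^ ν j)) := by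
  classical
  obtain ⟨γ, hγ1, hγ2⟩ := exists_sub ν k hν
  obtain ⟨H, h1, h2, h3⟩ := interp_form h hx0 hx l hy k s₀ γ hγ2
  refine ⟨X 0 ^ e * ((∏ j, X j ^ (ν j - γ j)) * H), ?_, ?_, ?_⟩
  · have h4 : (∏ j, (X j : MvPolynomial (Fin (n + 2)) R) ^ (ν j - γ j)).IsHomogeneous
        (∑ j, (ν j - γ j)) := IsHomogeneous.prod _ _ _ fun j _ => isHomogeneous_X_pow j _
    have h5 := (isHomogeneous_X_pow (R := R) (0 : Fin (n + 2)) e).mul (h4.mul h1)
    have h6 : e + (∑ j, (ν j - γ j) + k) = ∑ i, ν i + e := by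
      have : ∑ i, ν i = ∑ j, (ν j - γ j) + ∑ j, γ j := by
        rw [← Finset.sum_add_distrib]
        exact Finset.sum_congr rfl fun j _ => by have := hγ1 j; omega
      omega
    rwa [h6] at h5
  · have h5 := GoodP.mul h (GoodP.pow h (GoodP.X (ι := Fin (n + 2)) h 0) e)
      (GoodP.mul h (GoodP.prod_X_pow h Finset.univ fun j => ν j - γ j) h2)
    simpa using h5
  · intro s hs
    have h4 : ∏ j, eval₂ PowerSeries.C x ((X j : MvPolynomial (Fin (n + 2)) R) ^ (ν j - γ j)) =
        ∏ j, x j ^ (ν j - γ j) := Finset.prod_congr rfl fun j _ => by rw [eval₂_pow, eval₂_X]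
    rw [eval₂_mul, eval₂_pow, eval₂_X, hx0, one_pow, one_mul, eval₂_mul, eval₂_prod, h4, coeff_mul_congr h3 hs]
    congr 1
    have h5 : ∏ j, x j ^ ν j = (∏ j, x j ^ (ν j - γ j)) * ∏ j, x j ^ γ j := by
      rw [← Finset.prod_mul_distrib]
      refine Finset.prod_congr rfl fun j _ => ?_
      rw [← pow_add]
      congr 1
      have := hγ1 j
      omega
    rw [h5]
    ring

end form

section core

variable {R : Type*} [CommRing R] {n d : ℕ}

theorem eval₂_homog {H : MvPolynomial (Fin (n + 2)) R} (hH : H.IsHomogeneous d) (x : Fin (n + 2) → PowerSeries R) :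
    eval₂ PowerSeries.C x H = ∑ μ ∈ (Finset.univ : Finset (Fin (n + 2))).finsuppAntidiag d,
      PowerSeries.C (coeff μ H) * ∏ i, x i ^ μ i := by
  classical
  rw [eval₂_eq']
  refine Finset.sum_subset ?_ ?_
  · intro μ hμ
    rw [Finset.mem_finsuppAntidiag]
    refine ⟨?_, Finset.subset_univ _⟩
    have := hH (mem_support_iff.1 hμ)
    rw [Finsupp.weight_apply, Finsupp.sum_fintype _ _ (fun i => by simp)] at this
    simpa using this
  · intro μ _ hμ
    rw [notMem_support_iff.1 hμ, map_zero, zero_mul]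

/-- The correction of the coefficients cancels the motion of the coordinate `j`. -/
theorem cancel_core (x : Fin (n + 2) → PowerSeries R) (j : Fin (n + 2)) (k : ℕ) (a : (Fin (n + 2) →₀ ℕ) → R)
    (y : PowerSeries R) (H : (Fin (n + 2) →₀ ℕ) → MvPolynomial (Fin (n + 2)) R)
    (hH : ∀ α, (H α).IsHomogeneous d)
    (he : ∀ α, α ∈ (Finset.univ : Finset (Fin (n + 2))).finsuppAntidiag d → α j ≠ 0 → ∀ s ≤ k,
      PowerSeries.coeff s (eval₂ PowerSeries.C x (H α)) =
        PowerSeries.coeff s ((x j ^ (α j - 1) * ∏ i ∈ Finset.univ.erase j, x i ^ α i) * y)) :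
    ∀ s ≤ k, PowerSeries.coeff s (∑ μ ∈ (Finset.univ : Finset (Fin (n + 2))).finsuppAntidiag d,
      (PowerSeries.C (-∑ α ∈ (Finset.univ : Finset (Fin (n + 2))).finsuppAntidiag d,
        (α j : R) * a α * coeff μ (H α)) * ∏ i, x i ^ μ i +
      PowerSeries.C (a μ) * (((μ j : PowerSeries R) * (x j ^ (μ j - 1) *
        ∏ i ∈ Finset.univ.erase j, x i ^ μ i)) * y))) = 0 := by
  classical
  intro s hs
  rw [Finset.sum_add_distrib, map_add]
  have h1 : ∑ μ ∈ (Finset.univ : Finset (Fin (n + 2))).finsuppAntidiag d,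
      (PowerSeries.C (-∑ α ∈ (Finset.univ : Finset (Fin (n + 2))).finsuppAntidiag d,
        (α j : R) * a α * coeff μ (H α)) * ∏ i, x i ^ μ i) =
      -∑ α ∈ (Finset.univ : Finset (Fin (n + 2))).finsuppAntidiag d,
        PowerSeries.C ((α j : R) * a α) * eval₂ PowerSeries.C x (H α) := by
    have h2 : ∀ α, PowerSeries.C ((α j : R) * a α) * eval₂ PowerSeries.C x (H α) =
        ∑ μ ∈ (Finset.univ : Finset (Fin (n + 2))).finsuppAntidiag d,
          PowerSeries.C ((α j : R) * a α * coeff μ (H α)) * ∏ i, x i ^ μ i := by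
      intro α
      rw [eval₂_homog (hH α) x, Finset.mul_sum]
      refine Finset.sum_congr rfl fun μ _ => ?_
      rw [map_mul _ _ (coeff μ (H α)), mul_assoc]
    simp only [h2]
    rw [Finset.sum_comm, ← Finset.sum_neg_distrib]
    refine Finset.sum_congr rfl fun μ _ => ?_
    rw [map_neg, map_sum, neg_mul, Finset.sum_mul]
  rw [h1, map_neg, map_sum, map_sum, neg_add_eq_zero]
  refine Finset.sum_congr rfl fun α hα => ?_
  by_cases hj : α j = 0
  · rw [hj]
    simp
  · have h3 := he α hα hj s hs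
    have h4 : PowerSeries.C (a α) * (((α j : PowerSeries R) * (x j ^ (α j - 1) *
        ∏ i ∈ Finset.univ.erase j, x i ^ α i)) * y) =
        PowerSeries.C ((α j : R) * a α) * ((x j ^ (α j - 1) * ∏ i ∈ Finset.univ.erase j, x i ^ α i) * y) := by
      rw [map_mul, map_natCast]
      ring
    rw [h4, PowerSeries.coeff_C_mul, PowerSeries.coeff_C_mul, h3]

/-- Transfer of the vanishing to a point where the two curves agree. -/
theorem map_core {S : Type*} [CommRing S] (φ : R →+* S) (A : Finset (Fin (n + 2) →₀ ℕ))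
    (x x' : Fin (n + 2) → PowerSeries R) (h : ∀ i, PowerSeries.map φ (x i) = PowerSeries.map φ (x' i))
    (c c' a : (Fin (n + 2) →₀ ℕ) → R) (hc : ∀ μ, c μ = c' μ) (j : Fin (n + 2)) (y : PowerSeries R) (s : ℕ)
    (h0 : PowerSeries.coeff s (∑ μ ∈ A, (PowerSeries.C (c' μ) * ∏ i, x' i ^ μ i +
      PowerSeries.C (a μ) * (((μ j : PowerSeries R) * (x' j ^ (μ j - 1) *
        ∏ i ∈ Finset.univ.erase j, x' i ^ μ i)) * y))) = 0) :
    φ (PowerSeries.coeff s (∑ μ ∈ A, (PowerSeries.C (c μ) * ∏ i, x i ^ μ i +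
      PowerSeries.C (a μ) * (((μ j : PowerSeries R) * (x j ^ (μ j - 1) *
        ∏ i ∈ Finset.univ.erase j, x i ^ μ i)) * y)))) = 0 := by
  obtain rfl : c = c' := funext hc
  have h1 := congrArg φ h0
  rw [map_zero, ← PowerSeries.coeff_map] at h1
  rw [← PowerSeries.coeff_map, ← h1]
  congr 1
  simp only [map_sum, map_add, map_mul, map_prod, map_pow, h]

end core

end Pool.Agent.H37.UG
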