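import Mathlib

/-!
# Interpolation with control of the weights
-/

set_option autoImplicit false

open PowerSeries

namespace Pool.Agent.H37.UG

/-- Increasing multiplicative filtration of a ring. -/
structure IsFilt {R : Type*} [CommRing R] (B : ℕ → AddSubgroup R) : Prop where
  mono : Monotone B
  one : (1 : R) ∈ B 0
  mul : ∀ {a b : R} {e f : ℕ}, a ∈ B e → b ∈ B f → a * b ∈ B (e + f)

namespace IsFilt

variable {R : Type*} [CommRing R] {B : ℕ → AddSubgroup R} (h : IsFilt B)

include h

theorem pow {a : R} {e : ℕ} (ha : a ∈ B e) (n : ℕ) : a ^ n ∈ B (n * e) := by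
  induction n with
  | zero => simpa using h.one
  | succ n ih =>
    rw [pow_succ, Nat.succ_mul]
    exact h.mul ih ha

theorem nat (n : ℕ) : (n : R) ∈ B 0 := by
  have := AddSubgroup.nsmul_mem (B 0) h.one n
  simpa using this

/-- The coefficient of order `s` has weight `≤ c s + w`. -/
def Good {R : Type*} [CommRing R] (B : ℕ → AddSubgroup R) (c w : ℕ) (a : PowerSeries R) : Prop :=
  ∀ s, coeff s a ∈ B (c * s + w)

theorem good_one (c w : ℕ) : Good B c w (1 : PowerSeries R) := by
  intro s
  rw [coeff_one]
  split_ifs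
  · exact h.mono (Nat.zero_le _) h.one
  · exact (B _).zero_mem

theorem good_mul {c w w' : ℕ} {a b : PowerSeries R} (ha : Good B c w a) (hb : Good B c w' b) :
    Good B c (w + w') (a * b) := by
  intro s
  rw [coeff_mul]
  refine AddSubgroup.sum_mem _ fun x hx => ?_
  have hx' : x.1 + x.2 = s := Finset.HasAntidiagonal.mem_antidiagonal.1 hx
  have := h.mul (ha x.1) (hb x.2)
  have e : c * x.1 + w + (c * x.2 + w') = c * s + (w + w') := by
    rw [← hx']; ring
  rwa [e] at this

theorem good_pow {c w : ℕ} {a : PowerSeries R} (ha : Good B c w a) (n : ℕ) : Good B c (n * w) (a ^ n) := by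
  induction n with
  | zero => simpa using h.good_one c 0
  | succ n ih =>
    rw [pow_succ, Nat.succ_mul]
    exact h.good_mul ih ha

omit h in
theorem good_add {c w : ℕ} {a b : PowerSeries R} (ha : Good B c w a) (hb : Good B c w b) : Good B c w (a + b) := by
  intro s
  rw [map_add]
  exact (B _).add_mem (ha s) (hb s)

omit h in
theorem good_sub {c w : ℕ} {a b : PowerSeries R} (ha : Good B c w a) (hb : Good B c w b) : Good B c w (a - b) := by
  intro s
  rw [map_sub]
  exact (B _).sub_mem (ha s) (hb s)

/-- Interpolation by the powers of `v ζ(v)`, `ζ(0) = 1`. -/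
theorem norm_interp {w : ℕ} {ζ a : PowerSeries R} (hζ0 : coeff 0 ζ = 1) (hζ : Good B 3 0 ζ) (ha : Good B 3 w a)
    (j : ℕ) : ∃ c : ℕ → R, (∀ r, c r ∈ B (3 * r + w)) ∧
      (∀ s < j, coeff s (a - ∑ r ∈ Finset.range j, C (c r) * (X * ζ) ^ r) = 0) ∧
      Good B 3 w (a - ∑ r ∈ Finset.range j, C (c r) * (X * ζ) ^ r) := by
  induction j with
  | zero =>
    refine ⟨fun _ => 0, fun r => (B _).zero_mem, fun s hs => absurd hs (Nat.not_lt_zero s), ?_⟩
    simpa using ha
  | succ j ih =>
    obtain ⟨c, hc, h1, h2⟩ := ih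
    set ρ := a - ∑ r ∈ Finset.range j, C (c r) * (X * ζ) ^ r with hρ
    refine ⟨Function.update c j (coeff j ρ), ?_, ?_⟩
    · intro r
      by_cases hr : r = j
      · subst hr
        rw [Function.update_self]
        exact h2 r
      · rw [Function.update_of_ne hr]
        exact hc r
    · have e1 : a - ∑ r ∈ Finset.range (j + 1), C (Function.update c j (coeff j ρ) r) * (X * ζ) ^ r =
          ρ - C (coeff j ρ) * (X ^ j * ζ ^ j) := by
        rw [Finset.sum_range_succ, Function.update_self, hρ, mul_pow]
        have : ∑ r ∈ Finset.range j, C (Function.update c j (coeff j ρ) r) * (X * ζ) ^ r =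
            ∑ r ∈ Finset.range j, C (c r) * (X * ζ) ^ r := by
          refine Finset.sum_congr rfl fun r hr => ?_
          rw [Function.update_of_ne (Finset.mem_range.1 hr).ne]
        rw [this]
        ring
      rw [e1]
      have hz0 : coeff 0 (ζ ^ j) = 1 := by
        rw [coeff_zero_eq_constantCoeff_apply, map_pow, ← coeff_zero_eq_constantCoeff_apply, hζ0, one_pow]
      have hzj : Good B 3 0 (ζ ^ j) := by simpa using h.good_pow hζ j
      constructor
      · intro s hs
        rw [map_sub, coeff_C_mul, coeff_X_pow_mul']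
        rcases Nat.lt_succ_iff_lt_or_eq.1 hs with hs' | hs'
        · rw [h1 s hs', if_neg (not_le.2 hs'), mul_zero, sub_zero]
        · subst hs'
          rw [if_pos le_rfl, Nat.sub_self, hz0, mul_one, sub_self]
      · refine good_sub h2 fun s => ?_
        rw [coeff_C_mul, coeff_X_pow_mul']
        split_ifs with hs
        · have := h.mul (h2 j) (hzj (s - j))
          have e : 3 * j + w + (3 * (s - j) + 0) = 3 * s + w := by omega
          rwa [e] at this
        · rw [mul_zero]
          exact (B _).zero_mem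

/-- INTERPOLATION: `y^(2k) u` is modulo `t^(k+1)` a combination of `1, z, .., z^k`, `z = y t + ..`, with
coefficients of controlled weight. -/
theorem interp [IsDomain R] {w : ℕ} {z u : PowerSeries R} (hz0 : coeff 0 z = 0) (hz : Good B 1 1 z)
    (hy : coeff 1 z ≠ 0) (hu : Good B 1 w u) (k : ℕ) : ∃ c : ℕ → R, (∀ r ≤ k, c r ∈ B (4 * k - r + w)) ∧
      ∀ s ≤ k, coeff s (C (coeff 1 z ^ (2 * k)) * u - ∑ r ∈ Finset.range (k + 1), C (c r) * z ^ r) = 0 := by
  set y := coeff 1 z with hydef
  have hyB : y ∈ B 2 := by simpa using hz 1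
  let ζ : PowerSeries R := PowerSeries.mk fun s => if s = 0 then 1 else y ^ (s - 1) * coeff (s + 1) z
  have hζ0 : coeff 0 ζ = 1 := by simp [ζ]
  have hζ : Good B 3 0 ζ := by
    intro s
    change coeff s (PowerSeries.mk _) ∈ _
    rw [coeff_mk]
    split_ifs with hs
    · exact h.mono (Nat.zero_le _) h.one
    · have := h.mul (h.pow hyB (s - 1)) (hz (s + 1))
      have e : (s - 1) * 2 + (1 * (s + 1) + 1) = 3 * s + 0 := by omega
      rwa [e] at this
  have hre : rescale y z = C (y ^ 2) * (X * ζ) := by
    ext s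
    rw [coeff_rescale, coeff_C_mul]
    cases s with
    | zero => rw [hz0, coeff_zero_X_mul, mul_zero, mul_zero]
    | succ s =>
      rw [coeff_succ_X_mul]
      change _ = y ^ 2 * coeff s (PowerSeries.mk _)
      rw [coeff_mk]
      split_ifs with hs
      · subst hs
        rw [zero_add, pow_one, ← hydef]
        ring
      · obtain ⟨s', rfl⟩ := Nat.exists_eq_succ_of_ne_zero hs
        rw [Nat.succ_eq_add_one, Nat.add_sub_cancel]
        ring
  have ha : Good B 3 w (rescale y u) := by
    intro s
    rw [coeff_rescale]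
    have := h.mul (h.pow hyB s) (hu s)
    have e : s * 2 + (1 * s + w) = 3 * s + w := by ring
    rwa [e] at this
  obtain ⟨c, hc, h1, -⟩ := h.norm_interp hζ0 hζ ha (k + 1)
  refine ⟨fun r => c r * y ^ (2 * (k - r)), fun r hr => ?_, fun s hs => ?_⟩
  · have := h.mul (hc r) (h.pow hyB (2 * (k - r)))
    have e : 3 * r + w + 2 * (k - r) * 2 = 4 * k - r + w := by omega
    rwa [e] at this
  · have key : rescale y (C (y ^ (2 * k)) * u - ∑ r ∈ Finset.range (k + 1), C (c r * y ^ (2 * (k - r))) * z ^ r) =
        C (y ^ (2 * k)) * (rescale y u - ∑ r ∈ Finset.range (k + 1), C (c r) * (X * ζ) ^ r) := by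
      rw [map_sub, map_mul, map_sum, mul_sub, Finset.mul_sum]
      have hC : ∀ a : R, rescale y (C a) = C a := by
        intro a
        ext m
        rw [coeff_rescale, coeff_C]
        split_ifs with hm
        · subst hm; simp
        · simp
      rw [hC]
      congr 1
      refine Finset.sum_congr rfl fun r hr => ?_
      have hr' : r ≤ k := Nat.lt_succ_iff.1 (Finset.mem_range.1 hr)
      have e2 : y ^ (2 * k) = y ^ (2 * (k - r)) * (y ^ 2) ^ r := by
        rw [← pow_mul, ← pow_add]
        congr 1
        omega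
      rw [map_mul, map_pow, hre, hC, e2]
      generalize y ^ (2 * (k - r)) = q1
      generalize y ^ 2 = q2
      rw [mul_pow, map_mul, map_mul, map_pow]
      ring
    have h3 := congrArg (coeff s) key
    rw [coeff_rescale, coeff_C_mul, h1 s (Nat.lt_succ_of_le hs), mul_zero] at h3
    rcases mul_eq_zero.1 h3 with h4 | h4
    · exact absurd h4 (pow_ne_zero _ hy)
    · exact h4

end IsFilt

end Pool.Agent.H37.UG
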