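import Pool.Agent.H47.KB.Chern
import Pool.Agent.H97.KB.Asymp

/-!
# Chernoff bound for the number of monomials of large degree, with a free parameter
-/

set_option autoImplicit false

open Finset Filter Topology

namespace Pool.Agent.H37.UG

open H97KB

/-- `∏_{j ≤ k} (1 - u/j) ≥ (1 - u) / k^u` -/
theorem u_prod_ge (u : ℝ) (hu0 : 0 ≤ u) (hu1 : u < 1) (k : ℕ) (hk : 1 ≤ k) :
    (1 - u) / (k : ℝ) ^ u ≤ ∏ j ∈ range k, (1 - u / ((j : ℝ) + 1)) := by
  induction k, hk using Nat.le_induction with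
  | base => simp
  | succ k hk ih =>
    rw [prod_range_succ]
    have hk0 : (0 : ℝ) < k := by exact_mod_cast hk
    have h1 : (1 - 1 / ((k : ℝ) + 1)) ^ u ≤ 1 - u / ((k : ℝ) + 1) := by
      have h2 := rpow_one_add_le_one_add_mul_self (s := -(1 / ((k : ℝ) + 1)))
        (by rw [neg_le_neg_iff, div_le_one (by positivity)]; linarith) hu0 hu1.le
      have e : 1 + u * -(1 / ((k : ℝ) + 1)) = 1 - u / ((k : ℝ) + 1) := by ring
      rw [e, ← sub_eq_add_neg] at h2
      exact h2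
    have h3 : (1 : ℝ) - 1 / ((k : ℝ) + 1) = k / (k + 1) := by field_simp; ring
    rw [h3, Real.div_rpow hk0.le (by positivity)] at h1
    have h4 : 0 ≤ (1 - u) / (k : ℝ) ^ u := by
      have : 0 ≤ 1 - u := by linarith
      positivity
    have h5 : (0 : ℝ) < (k : ℝ) ^ u := Real.rpow_pos_of_pos hk0 u
    push_cast
    calc (1 - u) / ((k : ℝ) + 1) ^ u = (1 - u) / (k : ℝ) ^ u * ((k : ℝ) ^ u / ((k : ℝ) + 1) ^ u) := by
          rw [div_mul_div_comm, mul_comm (1 - u), mul_div_mul_left _ _ h5.ne']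
      _ ≤ (∏ j ∈ range k, (1 - u / ((j : ℝ) + 1))) * (1 - u / ((k : ℝ) + 1)) := by
          apply mul_le_mul ih h1 (by positivity)
          exact h4.trans ih

theorem u_prod_pos (u : ℝ) (hu1 : u < 1) (k : ℕ) : 0 < ∏ j ∈ range k, (1 - u / ((j : ℝ) + 1)) := by
  apply prod_pos
  intro j _
  have : u / ((j : ℝ) + 1) < 1 := by
    rw [div_lt_one (by positivity)]
    have : (0 : ℝ) ≤ j := Nat.cast_nonneg j
    linarith
  linarith

theorem u_prod_inv (u : ℝ) (hu0 : 0 ≤ u) (hu1 : u < 1) (k : ℕ) (hk : 1 ≤ k) :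
    (∏ j ∈ range k, (1 - u / ((j : ℝ) + 1)))⁻¹ ≤ (k : ℝ) ^ u / (1 - u) := by
  have hk0 : (0 : ℝ) < k := by exact_mod_cast hk
  have h1 : 0 < 1 - u := by linarith
  calc (∏ j ∈ range k, (1 - u / ((j : ℝ) + 1)))⁻¹ ≤ ((1 - u) / (k : ℝ) ^ u)⁻¹ :=
        inv_anti₀ (by positivity) (u_prod_ge u hu0 hu1 k hk)
    _ = _ := inv_div _ _

theorem prod_jw_u (u : ℝ) (k n : ℕ) : ∏ i, ((jw k n i : ℝ) - u)
    = (k.factorial : ℝ) ^ n * (∏ j ∈ range k, (1 - u / ((j : ℝ) + 1))) ^ n := by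
  rw [← mul_pow]
  rw [Fintype.prod_prod_type]
  simp only [jw, prod_const, card_univ, Fintype.card_fin]
  rw [prod_pow, Fin.prod_univ_eq_prod_range (fun j => (((j + 1 : ℕ)) : ℝ) - u) k]
  congr 1
  rw [← Finset.prod_range_add_one_eq_factorial, Nat.cast_prod, ← prod_mul_distrib]
  apply prod_congr rfl
  intro j _
  push_cast
  field_simp

/-- Chernoff bound, asymptotic form, with the parameter `u`. -/
theorem jetCount_asymp (u : ℝ) (hu0 : 0 ≤ u) (hu1 : u < 1) (n k M : ℕ) (hn : 1 ≤ n) (hk : 1 ≤ k)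
    (hM : M + 1 = k * n) (hM1 : 1 ≤ M) (q ε : ℝ) (hε : 0 < ε) :
    ∀ᶠ m : ℕ in atTop, ∀ p : ℕ, q * m ≤ p → (jetCount k n m p : ℝ) ≤
      (1 + ε) * (Real.exp (M - u * (q * M)) / (M : ℝ) ^ M *
        ((1 - u) * ((k : ℝ) ^ u / (1 - u)) ^ n / (k.factorial : ℝ) ^ n) * (m : ℝ) ^ M) := by
  have hM' : (1 : ℝ) ≤ M := by exact_mod_cast hM1
  have hk0 : (0 : ℝ) < k := by exact_mod_cast hk
  have hu2 : 0 < 1 - u := by linarith
  set i0 : Fin k × Fin n := (⟨0, hk⟩, ⟨0, hn⟩) with hi0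
  set c : Fin k × Fin n → ℝ := fun i => M * ((jw k n i : ℝ) - u) with hc
  have hcpos : ∀ i, 0 < c i := by
    intro i
    have : (1 : ℝ) ≤ jw k n i := by exact_mod_cast jw_pos k n i
    simp only [hc]
    apply mul_pos <;> linarith
  have hlim : Tendsto (fun m : ℕ => ∏ i ∈ univ.erase i0, (1 + c i / m)) atTop (𝓝 1) := by
    have : Tendsto (fun m : ℕ => ∏ i ∈ univ.erase i0, (1 + c i / m)) atTop
        (𝓝 (∏ i ∈ univ.erase i0, (1 + 0))) := by
      apply tendsto_finsetProd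
      intro i _
      exact tendsto_const_nhds.add (tendsto_const_div_atTop_nhds_zero_nat (c i))
    simpa using this
  have hev : ∀ᶠ m : ℕ in atTop, ∏ i ∈ univ.erase i0, (1 + c i / m) < 1 + ε :=
    hlim.eventually_lt_const (by linarith)
  filter_upwards [hev, eventually_ge_atTop 1] with m h1 hm p hp
  have hm' : (0 : ℝ) < m := by exact_mod_cast hm
  have hcard : (univ.erase i0 : Finset (Fin k × Fin n)).card = M := by
    rw [card_erase_of_mem (mem_univ i0), card_univ, Fintype.card_prod, Fintype.card_fin, Fintype.card_fin]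
    omega
  -- finite form
  have h : (jetCount k n m p : ℝ) ≤ Real.exp (M - u * (q * M)) *
      ∏ i ∈ univ.erase i0, (1 + m / c i) := by
    have h := H97KB.chern (jw k n) (jw_pos k n) i0 (by simp [jw, hi0]) m p hm M (u * M)
      (by positivity) (by nlinarith)
    rw [jetCount_eq]
    refine h.trans ?_
    have hprod : 0 ≤ ∏ i ∈ univ.erase i0, (1 + (m : ℝ) / c i) := by
      apply prod_nonneg
      intro i _
      have := div_pos hm' (hcpos i)
      linarith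
    have e : ∀ i : Fin k × Fin n, (M : ℝ) * jw k n i - u * M = c i := by
      intro i
      simp only [hc]
      ring
    simp only [e]
    apply mul_le_mul_of_nonneg_right _ hprod
    apply Real.exp_le_exp.mpr
    have h2 : q ≤ p / m := by rw [le_div_iff₀ hm']; exact hp
    have h3 : (u * M : ℝ) * q ≤ u * M * (p / m) := mul_le_mul_of_nonneg_left h2 (by positivity)
    have e2 : (u * M : ℝ) * p / m = u * M * (p / m) := by ring
    rw [e2]
    linarith
  refine h.trans ?_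
  have hsplit : ∏ i ∈ univ.erase i0, (1 + m / c i)
      = (∏ i ∈ univ.erase i0, (m / c i)) * ∏ i ∈ univ.erase i0, (1 + c i / m) := by
    rw [← prod_mul_distrib]
    apply prod_congr rfl
    intro i _
    have h3 := hcpos i
    field_simp
    ring
  have hP : 0 < ∏ i ∈ univ.erase i0, (c i) := prod_pos fun i _ => hcpos i
  have hprodc : ∏ i ∈ univ.erase i0, c i = (M : ℝ) ^ M *
      ((1 - u)⁻¹ * ((k.factorial : ℝ) ^ n * (∏ j ∈ range k, (1 - u / ((j : ℝ) + 1))) ^ n)) := by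
    have e1 := mul_prod_erase univ (fun i => (jw k n i : ℝ) - u) (mem_univ i0)
    rw [prod_jw_u] at e1
    have e0 : (jw k n i0 : ℝ) - u = 1 - u := by simp [jw, hi0]
    rw [e0] at e1
    simp only [hc]
    rw [prod_mul_distrib, prod_const, hcard, ← e1, inv_mul_cancel_left₀ hu2.ne']
  have hdiv : ∏ i ∈ univ.erase i0, ((m : ℝ) / c i) = (m : ℝ) ^ M / ∏ i ∈ univ.erase i0, c i := by
    rw [prod_div_distrib, prod_const, hcard]
  have hHP := u_prod_pos u hu1 k
  have hinv : (∏ i ∈ univ.erase i0, c i)⁻¹ ≤ 1 / (M : ℝ) ^ M *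
      ((1 - u) * ((k : ℝ) ^ u / (1 - u)) ^ n / (k.factorial : ℝ) ^ n) := by
    rw [hprodc]
    have hk' := u_prod_inv u hu0 hu1 k hk
    have h2 : ((∏ j ∈ range k, (1 - u / ((j : ℝ) + 1))) ^ n)⁻¹ ≤ ((k : ℝ) ^ u / (1 - u)) ^ n := by
      rw [← inv_pow]
      exact pow_le_pow_left₀ (inv_nonneg.mpr hHP.le) hk' n
    have hf : (0 : ℝ) < (k.factorial : ℝ) ^ n := by positivity
    have hMM : (0 : ℝ) < (M : ℝ) ^ M := by positivity
    rw [mul_inv, mul_inv, mul_inv, inv_inv]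
    calc ((M : ℝ) ^ M)⁻¹ * ((1 - u) * (((k.factorial : ℝ) ^ n)⁻¹ *
          ((∏ j ∈ range k, (1 - u / ((j : ℝ) + 1))) ^ n)⁻¹))
        ≤ ((M : ℝ) ^ M)⁻¹ * ((1 - u) * (((k.factorial : ℝ) ^ n)⁻¹ * ((k : ℝ) ^ u / (1 - u)) ^ n)) := by
          gcongr
      _ = _ := by field_simp
  rw [hsplit, hdiv]
  have hm0 : 0 ≤ (m : ℝ) ^ M := by positivity
  have step1 : (m : ℝ) ^ M / ∏ i ∈ univ.erase i0, c i ≤
      1 / (M : ℝ) ^ M * ((1 - u) * ((k : ℝ) ^ u / (1 - u)) ^ n / (k.factorial : ℝ) ^ n) * (m : ℝ) ^ M := by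
    rw [div_eq_mul_inv, mul_comm]
    exact mul_le_mul_of_nonneg_right hinv hm0
  have hge : 0 ≤ ∏ i ∈ univ.erase i0, (1 + c i / m) := by
    apply prod_nonneg
    intro i _
    have := div_pos (hcpos i) hm'
    linarith
  have hB : 0 ≤ 1 / (M : ℝ) ^ M * ((1 - u) * ((k : ℝ) ^ u / (1 - u)) ^ n / (k.factorial : ℝ) ^ n) *
      (m : ℝ) ^ M := by
    positivity
  calc Real.exp (M - u * (q * M)) * ((m : ℝ) ^ M / (∏ i ∈ univ.erase i0, c i) *
        ∏ i ∈ univ.erase i0, (1 + c i / m))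
      ≤ Real.exp (M - u * (q * M)) *
        ((1 / (M : ℝ) ^ M * ((1 - u) * ((k : ℝ) ^ u / (1 - u)) ^ n / (k.factorial : ℝ) ^ n) *
          (m : ℝ) ^ M) * (1 + ε)) := by
        apply mul_le_mul_of_nonneg_left _ (Real.exp_pos _).le
        exact mul_le_mul step1 h1.le hge hB
    _ = _ := by ring

open Pool.Agent.H47.KB (Mon)

/-- The bound for the number of monomials of weight `m` and degree at least `q m`, without `m^M`. -/
noncomputable def cntU (u : ℝ) (n k : ℕ) (q : ℝ) : ℝ :=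
  Real.exp ((k * n - 1 : ℕ) - u * (q * (k * n - 1 : ℕ))) / ((k * n - 1 : ℕ) : ℝ) ^ (k * n - 1) *
    ((1 - u) * ((k : ℝ) ^ u / (1 - u)) ^ n / (k.factorial : ℝ) ^ n)

theorem cntU_nonneg (u : ℝ) (hu1 : u < 1) (n k : ℕ) (q : ℝ) : 0 ≤ cntU u n k q := by
  have : 0 < 1 - u := by linarith
  unfold cntU
  positivity

/-- Upper bound for the number of sections, for large `m`, with the parameter `u`. -/
theorem upperU (u : ℝ) (hu0 : 0 ≤ u) (hu1 : u < 1) (n k d : ℕ) (hn : 1 ≤ n) (hk : 1 ≤ k) (hM : 2 ≤ k * n)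
    (hd : 1 ≤ d) (q κ : ℝ) (hc : cntU u n k q * ((d : ℝ) ^ (n + 1) / n.factorial) < κ) :
    ∀ᶠ m : ℕ in atTop, ∀ p a : ℕ, q * m ≤ p → a ≤ d * m →
      ((Nat.card (Mon n k m p) * (d * (a + n).choose n) : ℕ) : ℝ) < κ * (m : ℝ) ^ (n + k * n - 1) := by
  have hB := cntU_nonneg u hu1 n k q
  have hd0 : (0 : ℝ) < d := by exact_mod_cast hd
  obtain ⟨ε, hε, hε'⟩ : ∃ ε : ℝ, 0 < ε ∧
      (1 + ε) * (cntU u n k q) * (d * (((1 + ε) * d) ^ n / n.factorial)) < κ := by
    have ht : Tendsto (fun ε : ℝ => (1 + ε) * (cntU u n k q) * (d * (((1 + ε) * d) ^ n / n.factorial)))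
        (𝓝[>] 0) (𝓝 ((1 + 0) * (cntU u n k q) * (d * (((1 + 0) * d) ^ n / n.factorial)))) := by
      apply Tendsto.mono_left _ nhdsWithin_le_nhds
      apply Continuous.tendsto
      fun_prop
    have hlt : (1 + 0) * (cntU u n k q) * (d * (((1 + 0) * d) ^ n / n.factorial)) < κ := by
      refine lt_of_eq_of_lt ?_ hc
      rw [pow_succ]
      ring
    have h1 := ht.eventually_lt_const hlt
    have h2 : ∀ᶠ ε : ℝ in 𝓝[>] 0, 0 < ε := eventually_mem_nhdsWithin
    obtain ⟨ε, h3, h4⟩ := (h1.and h2).exists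
    exact ⟨ε, h4, h3⟩
  have h1 : ∀ᶠ m : ℕ in atTop, ∀ p : ℕ, q * m ≤ p →
      (Nat.card (Mon n k m p) : ℝ) ≤ (1 + ε) * cntU u n k q * (m : ℝ) ^ (k * n - 1) := by
    filter_upwards [jetCount_asymp u hu0 hu1 n k (k * n - 1) hn hk (by omega) (by omega) q ε hε] with m h p hp
    have := h p hp
    rw [← mul_assoc] at this
    exact this
  have h2 : ∀ᶠ m : ℕ in atTop, (n : ℝ) ≤ ε * d * m := by
    have : Tendsto (fun m : ℕ => ε * d * (m : ℝ)) atTop atTop :=
      Tendsto.const_mul_atTop (by positivity) tendsto_natCast_atTop_atTop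
    exact this.eventually_ge_atTop _
  filter_upwards [h1, h2, eventually_ge_atTop 1] with m h1 h2 hm p a hp ha
  have hm0 : (0 : ℝ) < m := by exact_mod_cast hm
  have h3 := h1 p hp
  have h4 : (((a + n).choose n : ℕ) : ℝ) ≤ ((1 + ε) * d) ^ n * (m : ℝ) ^ n / n.factorial := by
    have h5 : (((a + n).choose n : ℕ) : ℝ) ≤ ((a + n : ℕ) : ℝ) ^ n / n.factorial := Nat.choose_le_pow_div n (a + n)
    refine h5.trans ?_
    rw [← mul_pow]
    have h6 : ((a + n : ℕ) : ℝ) ≤ (1 + ε) * d * m := by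
      push_cast
      have : (a : ℝ) ≤ d * m := by exact_mod_cast ha
      nlinarith
    gcongr
  push_cast
  have hN : n + k * n - 1 = (k * n - 1) + n := by omega
  calc (Nat.card (Mon n k m p) : ℝ) * (d * ((a + n).choose n : ℕ))
      ≤ ((1 + ε) * cntU u n k q * (m : ℝ) ^ (k * n - 1)) *
        (d * (((1 + ε) * d) ^ n * (m : ℝ) ^ n / n.factorial)) := by
        gcongr
    _ = ((1 + ε) * (cntU u n k q) * (d * (((1 + ε) * d) ^ n / n.factorial))) *
        (m : ℝ) ^ (n + k * n - 1) := by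
        rw [hN, pow_add]
        ring
    _ < κ * (m : ℝ) ^ (n + k * n - 1) := by
        gcongr

/-- The bound for the number of monomials of weight `m` and degree at least `q m`, without `m^M`. -/
noncomputable def cnt (n k : ℕ) (q : ℝ) : ℝ :=
  Real.exp ((k * n - 1 : ℕ) - 9 / 10 * (q * (k * n - 1 : ℕ))) / ((k * n - 1 : ℕ) : ℝ) ^ (k * n - 1) *
    ((10 * (k : ℝ) ^ (9 / 10 : ℝ)) ^ n / (10 * (k.factorial : ℝ) ^ n))

theorem cnt_eq (n k : ℕ) (q : ℝ) : cnt n k q = cntU (9 / 10) n k q := by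
  unfold cnt cntU
  congr 1
  have h1 : (1 : ℝ) - 9 / 10 = 1 / 10 := by norm_num
  have h2 : (k : ℝ) ^ (9 / 10 : ℝ) / (1 / 10) = 10 * (k : ℝ) ^ (9 / 10 : ℝ) := by ring
  rw [h1, h2, div_mul_eq_mul_div, one_mul, div_div]

/-- Upper bound for the number of sections, for large `m`. -/
theorem upper (n k d : ℕ) (hn : 1 ≤ n) (hk : 1 ≤ k) (hM : 2 ≤ k * n) (hd : 1 ≤ d) (q κ : ℝ) (_hq : 0 ≤ q)
    (hc : cnt n k q * ((d : ℝ) ^ (n + 1) / n.factorial) < κ) :
    ∀ᶠ m : ℕ in atTop, ∀ p a : ℕ, q * m ≤ p → a ≤ d * m →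
      ((Nat.card (Mon n k m p) * (d * (a + n).choose n) : ℕ) : ℝ) < κ * (m : ℝ) ^ (n + k * n - 1) := by
  rw [cnt_eq] at hc
  exact upperU (9 / 10) (by norm_num) (by norm_num) n k d hn hk hM hd q κ hc

end Pool.Agent.H37.UG
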